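import Pool.Agent.Helper98.CF.FT

set_option autoImplicit false

/-!
Class forcing that preserves Separation satisfies the forcing theorem.

The proof: a forcing preserving Separation (over a countable transitive model of `GBC`) is
pretame (`pretame_of_preserves`), and pretame forcings satisfy the forcing theorem
(`forcingTheorem_of_pretame`).  See `Pool/Agent/Helper98/CF/Defs.lean` for the definitions.
-/

namespace Pool.Agent.Results.MP_878529_lc.SeparationForcingTheorem

open Pool.Agent.Helper98.CF

universe u

/-- Let `⟨M, C⟩` be a countable transitive model of `GBC` and let `⟨P, R⟩` be a notion of class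
forcing for it which preserves Separation.  Then it satisfies the forcing theorem. -/
theorem result (M : Set ZFSet.{u}) (C : Set (Set ZFSet.{u})) (P R : Set ZFSet.{u})
    (_hM : M.Countable) (hC : C.Countable) (h : IsGBC M C) (hP : IsForcing C P R)
    (hsep : PreservesSeparation M C P R) : ForcingTheorem M C P R :=
  forcingTheorem_of_pretame h hP hC (pretame_of_preserves h hP hC hsep)

end Pool.Agent.Results.MP_878529_lc.SeparationForcingTheorem
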